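import Pool.Agent.W46.HM.Final

/-!
# The Kakeya maximal function in high dimensions
-/

set_option autoImplicit false

open MeasureTheory
open scoped ENNReal

namespace Pool.Agent.Results.MP_5168f5_an.ArithmeticMaximal

/-- The closed cylinder of length `1` and radius `δ` with centre `a` and axis direction `e`. -/
def tube {n : ℕ} (δ : ℝ) (a e : EuclideanSpace ℝ (Fin n)) : Set (EuclideanSpace ℝ (Fin n)) :=
  {y | |inner ℝ (y - a) e| ≤ 1 / 2 ∧ ‖(y - a) - (inner ℝ (y - a) e) • e‖ ≤ δ}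

/-- The Kakeya maximal function. -/
noncomputable def kakeyaMax {n : ℕ} (δ : ℝ) (f : EuclideanSpace ℝ (Fin n) → ℝ)
    (e : EuclideanSpace ℝ (Fin n)) : ℝ≥0∞ :=
  ⨆ a : EuclideanSpace ℝ (Fin n), (volume (tube δ a e))⁻¹ * ∫⁻ y in tube δ a e, ‖f y‖ₑ

/-- Surface measure of the unit sphere. -/
noncomputable abbrev surf (n : ℕ) : Measure (Metric.sphere (0 : EuclideanSpace ℝ (Fin n)) 1) :=
  (volume : Measure (EuclideanSpace ℝ (Fin n))).toSphere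

/-- For `n ≥ 26` and `p = 1 + (n - 1) / 1.6752`: the Kakeya maximal estimate
`‖f*_δ‖_p ≤ C δ ^ (1 - n / p) ‖f‖_p` without loss, and its stronger weak type form
`L^p → L^(1.6752 p, ∞)`. -/
theorem result (n : ℕ) (hn : 26 ≤ n) (c p : ℝ) (hc : c = 1.6752) (hp : p = 1 + ((n : ℝ) - 1) / c) :
    ∃ C : ℝ, 0 < C ∧ ∀ δ : ℝ, 0 < δ → δ < 1 → ∀ f : EuclideanSpace ℝ (Fin n) → ℝ,
      AEMeasurable f volume →
      (∫⁻ e, kakeyaMax δ f e ^ p ∂(surf n) ≤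
        ENNReal.ofReal (C * δ ^ (-((n : ℝ) - p))) * ∫⁻ y, ‖f y‖ₑ ^ p) ∧
      (∀ l : ℝ, 0 < l → surf n {e | ENNReal.ofReal l < kakeyaMax δ f e} ≤
        ENNReal.ofReal (C * δ ^ (-((c - 1) * ((n : ℝ) - 1))) * l ^ (-(c * p))) *
          (∫⁻ y, ‖f y‖ₑ ^ p) ^ c) := by
  obtain ⟨d, rfl⟩ : ∃ d, n = d + 1 := ⟨n - 1, by omega⟩
  have hd : 25 ≤ d := by omega
  have e1 : (((d + 1 : ℕ) : ℝ) - 1) = d := by push_cast; ring
  have e2 : (1.6752 : ℝ) = 16752 / 10000 := by norm_num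
  rw [e2] at hc
  rw [e1, hc] at hp
  subst hp
  subst hc
  obtain ⟨C1, hC1, h1⟩ := Pool.Agent.W46.HM.strong d hd
  obtain ⟨C2, hC2, h2⟩ := Pool.Agent.W46.HM.weak d hd
  refine ⟨C1 + C2, by positivity, ?_⟩
  intro δ hδ hδ1 f hf
  refine ⟨?_, ?_⟩
  · refine (h1 δ hδ hδ1 (fun y => ‖f y‖ₑ) hf.enorm).trans (mul_le_mul_left ?_ _)
    apply ENNReal.ofReal_le_ofReal
    have e3 : -((((d + 1 : ℕ) : ℝ)) - (1 + (d : ℝ) / (16752 / 10000))) =
        -((d : ℝ) - (d : ℝ) / (16752 / 10000)) := by push_cast; ring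
    rw [e3]
    have := Real.rpow_pos_of_pos hδ (-((d : ℝ) - (d : ℝ) / (16752 / 10000)))
    nlinarith
  · intro l hl
    refine (h2 δ hδ hδ1 (fun y => ‖f y‖ₑ) hf.enorm l hl).trans (mul_le_mul_left ?_ _)
    apply ENNReal.ofReal_le_ofReal
    have e4 : -((16752 : ℝ) / 10000 * (1 + (d : ℝ) / (16752 / 10000))) =
        -((d : ℝ) + 16752 / 10000) := by ring
    rw [e1, e4]
    have h3 := Real.rpow_pos_of_pos hδ (-((16752 / 10000 - 1) * (d : ℝ)))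
    have h4 := Real.rpow_pos_of_pos hl (-((d : ℝ) + 16752 / 10000))
    have h5 := mul_pos h3 h4
    nlinarith

end Pool.Agent.Results.MP_5168f5_an.ArithmeticMaximal
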