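import Pool.Agent.W769.Iso.Sharp
import Pool.Agent.W769.Ent.Level

set_option autoImplicit false

/-!
# MP_5168f5: Lipschitz families of tubes: subpolynomial loss, and the threshold for no loss

Work in `ℝ^n = ℝ × ℝ^d`, `n = d + 1 ≥ 3`, with maximum norms; `Q` is the closed unit ball (a cube)
of `ℝ^d`.  A family of tubes is given by a map `a : ℝ^d → ℝ^d`: the tube number `v ∈ Q` is
`T_v = {(t, y) : 0 ≤ t ≤ 1, ‖y - (a v + t v)‖ ≤ δ}`; its direction is `(1, v)`.  The map `a` is
Lipschitz with constant `L`; the lines may meet each other arbitrarily often.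

* (any density, subpolynomial loss) If the average density of `E` on the tubes of the family is at
  least `γ`, that is `∫_Q |T_v ∩ E| dv ≥ γ (2δ)^d`, then
  `|E| ≥ exp (-(C/γ) (1 + L)^(2d(d+1)) (1 + log (1/δ))^(1 - 1/(2d² + 2d + 1)))`.
* (small deletions, no loss) If a set `E` misses at most the mass `c (1 + L)^(-d) |T_v|` of the whole
  family, `∫_Q |T_v \ E| dv ≤ c (1 + L)^(-d) (2δ)^d`, then `|E| ≥ c (1 + L)^(-d(d-1))`, for every
  `δ > 0`.
* (sharpness) For all `L ≥ 1` and `ε > 0` there are a family and a compact set `G` of directions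
  which contains all directions up to the proportion `L^(-d)`, such that the tubes `T_v`, `v ∈ G`,
  lie in an open set of measure at most `ε`.
* (maximal function) For every `L > 0` and every exponent `p < ∞` the averages over the tubes of
  the `L`-Lipschitz families satisfy no `L^p` estimate which is uniform in `δ`.
-/

open MeasureTheory Set Filter Topology Metric
open scoped ENNReal Pointwise

namespace Pool.Agent.Results.MP_5168f5_an.LipschitzThreshold

open Pool.Agent.W769.Iso Pool.Agent.W769.Ent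

/-- The tube number `v` of the family `a` (maximum norm). -/
def tube {d : ℕ} (δ : ℝ) (a : (Fin d → ℝ) → Fin d → ℝ) (v : Fin d → ℝ) : Set (Fin (d + 1) → ℝ) :=
  {z | z 0 ∈ Icc (0 : ℝ) 1 ∧ ‖Fin.tail z - (a v + z 0 • v)‖ ≤ δ}

/-- `a` is Lipschitz with constant `L` on the unit ball `Q` of the directions. -/
def LipFamily {d : ℕ} (L : ℝ) (a : (Fin d → ℝ) → Fin d → ℝ) : Prop :=
  ∀ v ∈ closedBall (0 : Fin d → ℝ) 1, ∀ w ∈ closedBall (0 : Fin d → ℝ) 1,
    ‖a v - a w‖ ≤ L * ‖v - w‖

/-- The average of `|f|` over the tube number `v`. -/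
noncomputable def avg {d : ℕ} (δ : ℝ) (a : (Fin d → ℝ) → Fin d → ℝ)
    (f : (Fin (d + 1) → ℝ) → ℝ) (v : Fin d → ℝ) : ℝ≥0∞ :=
  (volume (tube δ a v))⁻¹ * ∫⁻ z in tube δ a v, ‖f z‖ₑ

theorem isClosed_slab {d : ℕ} (s δ : ℝ) (b v : Fin d → ℝ) :
    IsClosed {z : Fin (d + 1) → ℝ | z 0 ∈ Icc (0 : ℝ) s ∧ ‖Fin.tail z - (b + z 0 • v)‖ ≤ δ} := by
  have h1 : Continuous (fun z : Fin (d + 1) → ℝ => ‖Fin.tail z - (b + z 0 • v)‖) := by
    apply Continuous.norm
    unfold Fin.tail
    fun_prop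
  exact (isClosed_Icc.preimage (continuous_apply 0)).inter (isClosed_le h1 continuous_const)

theorem volume_slab {d : ℕ} {s δ : ℝ} (hδ : 0 ≤ δ) (b v : Fin d → ℝ) :
    volume {z : Fin (d + 1) → ℝ | z 0 ∈ Icc (0 : ℝ) s ∧ ‖Fin.tail z - (b + z 0 • v)‖ ≤ δ} =
      ENNReal.ofReal ((2 * δ) ^ d) * ENNReal.ofReal s := by
  rw [(volume_eq_slices (isClosed_slab s δ b v).measurableSet).2]
  have h : ∀ t : ℝ, volume {y : Fin d → ℝ | (Fin.cons t y : Fin (d + 1) → ℝ) ∈
      {z : Fin (d + 1) → ℝ | z 0 ∈ Icc (0 : ℝ) s ∧ ‖Fin.tail z - (b + z 0 • v)‖ ≤ δ}} =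
      (Icc (0 : ℝ) s).indicator (fun _ => ENNReal.ofReal ((2 * δ) ^ d)) t := by
    intro t
    by_cases ht : t ∈ Icc (0 : ℝ) s
    · rw [Set.indicator_of_mem ht]
      have h1 : {y : Fin d → ℝ | (Fin.cons t y : Fin (d + 1) → ℝ) ∈
          {z : Fin (d + 1) → ℝ | z 0 ∈ Icc (0 : ℝ) s ∧ ‖Fin.tail z - (b + z 0 • v)‖ ≤ δ}} =
          closedBall (b + t • v) δ := by
        ext y
        simp only [Set.mem_ofPred_eq, Fin.cons_zero, Fin.tail_cons, mem_closedBall, dist_eq_norm]
        exact ⟨fun h => h.2, fun h => ⟨ht, h⟩⟩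
      rw [h1, Real.volume_pi_closedBall _ hδ, Fintype.card_fin]
    · rw [Set.indicator_of_notMem ht]
      have h1 : {y : Fin d → ℝ | (Fin.cons t y : Fin (d + 1) → ℝ) ∈
          {z : Fin (d + 1) → ℝ | z 0 ∈ Icc (0 : ℝ) s ∧ ‖Fin.tail z - (b + z 0 • v)‖ ≤ δ}} = ∅ := by
        ext y
        simp only [Set.mem_ofPred_eq, Fin.cons_zero, Fin.tail_cons, Set.mem_empty_iff_false,
          iff_false]
        exact fun h => ht h.1
      rw [h1, measure_empty]
  simp_rw [h]
  rw [lintegral_indicator measurableSet_Icc, setLIntegral_const, Real.volume_Icc, sub_zero]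

/-- **Lipschitz families of tubes**: lower bound with a subpolynomial loss for every density, the
threshold for the bound without loss, and the failure of uniform maximal estimates. -/
theorem result (d : ℕ) (hd : 2 ≤ d) :
    (∃ C : ℝ, 0 < C ∧ ∀ (L δ γ : ℝ) (a : (Fin d → ℝ) → Fin d → ℝ)
      (E : Set (Fin (d + 1) → ℝ)), 0 ≤ L → 0 < δ → δ ≤ 1 → 0 < γ → LipFamily L a →
      MeasurableSet E →
      ENNReal.ofReal (γ * (2 * δ) ^ d) ≤
        ∫⁻ v in closedBall (0 : Fin d → ℝ) 1, volume (tube δ a v ∩ E) →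
      ENNReal.ofReal (Real.exp (-(C / γ * (1 + L) ^ (2 * d * (d + 1)) *
        (1 + Real.log (1 / δ)) ^ (1 - 1 / (2 * (d : ℝ) ^ 2 + 2 * d + 1))))) ≤ volume E) ∧
    (∃ c : ℝ, 0 < c ∧ ∀ (L δ : ℝ) (a : (Fin d → ℝ) → Fin d → ℝ) (E : Set (Fin (d + 1) → ℝ)),
      0 ≤ L → 0 < δ → LipFamily L a → MeasurableSet E →
      ∫⁻ v in closedBall (0 : Fin d → ℝ) 1, volume (tube δ a v \ E)
        ≤ ENNReal.ofReal (c / (1 + L) ^ d * (2 * δ) ^ d) →
      ENNReal.ofReal (c / (1 + L) ^ (d * (d - 1))) ≤ volume E) ∧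
    (∀ (L ε : ℝ), 1 ≤ L → 0 < ε → ∃ (δ : ℝ) (a : (Fin d → ℝ) → Fin d → ℝ)
      (G : Set (Fin d → ℝ)) (E : Set (Fin (d + 1) → ℝ)), 0 < δ ∧ LipFamily L a ∧
      IsCompact G ∧ G ⊆ closedBall 0 1 ∧
      volume (closedBall (0 : Fin d → ℝ) 1 \ G)
        ≤ ENNReal.ofReal (1 / L ^ d) * volume (closedBall (0 : Fin d → ℝ) 1) ∧
      IsOpen E ∧ volume E ≤ ENNReal.ofReal ε ∧ ∀ v ∈ G, tube δ a v ⊆ E) ∧
    (∀ (L p C : ℝ), 0 < L → 0 < p → ∃ (δ : ℝ) (a : (Fin d → ℝ) → Fin d → ℝ)
      (f : (Fin (d + 1) → ℝ) → ℝ), 0 < δ ∧ δ < 1 ∧ LipFamily L a ∧ Measurable f ∧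
      ENNReal.ofReal C * ∫⁻ z, ‖f z‖ₑ ^ p
        < ∫⁻ v in closedBall (0 : Fin d → ℝ) 1, avg δ a f v ^ p) := by
  refine ⟨?_, ?_⟩
  · obtain ⟨C, hC, h⟩ := level_set (d := d) (by omega)
    exact ⟨C, hC, fun L δ γ a E hL hδ hδ1 hγ ha hE hint => h L δ γ a E hL hδ hδ1 hγ ha hE hint⟩
  obtain ⟨k, rfl⟩ : ∃ k, d = k + 1 := ⟨d - 1, by omega⟩
  refine ⟨?_, ?_, ?_⟩
  · obtain ⟨c, hc, h⟩ := tube_dens hd
    refine ⟨c, hc, fun L δ a E hL hδ ha hE hmiss => ?_⟩
    have := h L δ a hL hδ ha E hE (by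
      refine hmiss.trans (le_of_eq ?_)
      rw [div_eq_mul_inv])
    rwa [← div_eq_mul_inv] at this
  · intro L ε hL hε
    obtain ⟨a, G, U, δ, ha, hGc, hGs, hGv, hU, hUv, hδ, hT⟩ := sharp k hL hε
    refine ⟨δ, a, G, U, hδ, fun v _ w _ => ha v w, hGc, hGs, ?_, hU, hUv, fun v hv => hT v hv⟩
    refine hGv.trans (le_of_eq ?_)
    rw [Real.volume_pi_closedBall _ zero_le_one, Fintype.card_fin,
      ← ENNReal.ofReal_mul (by positivity)]
    congr 1
    ring
  · intro L p C hL hp
    set σ : ℝ := min (L / 2) 1 with hσ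
    have hσ0 : 0 < σ := lt_min (by linarith) one_pos
    have hσ1 : σ ≤ 1 := min_le_right _ _
    have hσL : σ * 2 ≤ L := by
      have := min_le_left (L / 2) 1
      rw [← hσ] at this
      linarith
    -- the size of the exceptional set
    set ε : ℝ := σ ^ p / (2 * (|C| + 1)) with hε
    have hε0 : 0 < ε := by positivity
    obtain ⟨a0, G, U0, δ0, ha, hGc, hGs, hGv, hU, hUv, hδ0, hT⟩ :=
      sharp k (L := 2) (by norm_num) hε0
    set δ : ℝ := min (σ * δ0) (1 / 2) with hδ
    have hδp : 0 < δ := lt_min (by positivity) (by norm_num)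
    set a : (Fin (k + 1) → ℝ) → Fin (k + 1) → ℝ := fun v => σ • a0 v with hadef
    set U : Set (Fin (k + 1 + 1) → ℝ) := σ • U0 with hUdef
    have hUm : MeasurableSet U := (hU.smul₀ hσ0.ne').measurableSet
    have hUvol : volume U ≤ ENNReal.ofReal ε := by
      rw [hUdef, Measure.addHaar_smul, Module.finrank_fin_fun]
      calc ENNReal.ofReal |σ ^ (k + 1 + 1)| * volume U0 ≤ 1 * volume U0 := by
            gcongr
            rw [abs_of_nonneg (by positivity)]
            exact ENNReal.ofReal_le_one.2 (pow_le_one₀ hσ0.le hσ1)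
        _ ≤ ENNReal.ofReal ε := by rwa [one_mul]
    refine ⟨δ, a, U.indicator (fun _ => 1), hδp, ?_, ?_, measurable_const.indicator hUm, ?_⟩
    · exact (min_le_right _ _).trans_lt (by norm_num)
    · intro v _ w _
      rw [hadef]
      simp only
      rw [← smul_sub, norm_smul, Real.norm_eq_abs, abs_of_pos hσ0]
      calc σ * ‖a0 v - a0 w‖ ≤ σ * (2 * ‖v - w‖) := by gcongr; exact ha v w
        _ = (σ * 2) * ‖v - w‖ := by ring
        _ ≤ L * ‖v - w‖ := by gcongr
    · -- the right side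
      have hnorm : ∀ z, ‖U.indicator (fun _ => (1 : ℝ)) z‖ₑ = U.indicator (fun _ => (1 : ℝ≥0∞)) z := by
        intro z
        by_cases hz : z ∈ U <;> simp [hz]
      have hleft : ∫⁻ z, ‖U.indicator (fun _ => (1 : ℝ)) z‖ₑ ^ p = volume U := by
        have h1 : ∀ z, ‖U.indicator (fun _ => (1 : ℝ)) z‖ₑ ^ p =
            U.indicator (fun _ => (1 : ℝ≥0∞)) z := by
          intro z
          rw [hnorm]
          by_cases hz : z ∈ U
          · simp [hz]
          · simp [hz, hp]
        simp_rw [h1]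
        rw [lintegral_indicator hUm, setLIntegral_one]
      have hav : ∀ v ∈ G, ENNReal.ofReal σ ≤ avg δ a (U.indicator (fun _ => (1 : ℝ))) v := by
        intro v hv
        have hslab : {z : Fin (k + 1 + 1) → ℝ | z 0 ∈ Icc (0 : ℝ) σ ∧
            ‖Fin.tail z - (a v + z 0 • v)‖ ≤ δ} ⊆ tube δ a v ∩ U := by
          rintro z ⟨hz0, hz⟩
          refine ⟨⟨⟨hz0.1, hz0.2.trans hσ1⟩, hz⟩, ?_⟩
          rw [hUdef, Set.mem_smul_set_iff_inv_smul_mem₀ hσ0.ne']
          apply hT v hv
          refine ⟨⟨?_, ?_⟩, ?_⟩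
          · simp only [Pi.smul_apply, smul_eq_mul]
            exact mul_nonneg (inv_nonneg.2 hσ0.le) hz0.1
          · simp only [Pi.smul_apply, smul_eq_mul]
            rw [inv_mul_le_iff₀ hσ0, mul_one]
            exact hz0.2
          · have h1 : Fin.tail (σ⁻¹ • z) - (a0 v + (σ⁻¹ • z) 0 • v) =
                σ⁻¹ • (Fin.tail z - (a v + z 0 • v)) := by
              ext i
              simp only [Fin.tail, hadef, Pi.smul_apply, Pi.sub_apply, Pi.add_apply, smul_eq_mul]
              field_simp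
            rw [h1, norm_smul, Real.norm_eq_abs, abs_of_pos (inv_pos.2 hσ0),
              inv_mul_le_iff₀ hσ0]
            exact hz.trans (min_le_left _ _)
        have hvt : volume (tube δ a v) = ENNReal.ofReal ((2 * δ) ^ (k + 1)) := by
          have := volume_slab (s := 1) hδp.le (a v) v
          rw [ENNReal.ofReal_one, mul_one] at this
          exact this
        have htm : MeasurableSet (tube δ a v) := (isClosed_slab 1 δ (a v) v).measurableSet
        unfold avg
        simp_rw [hnorm]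
        rw [setLIntegral_indicator hUm, setLIntegral_one]
        have hpos : ENNReal.ofReal ((2 * δ) ^ (k + 1)) ≠ 0 := by
          rw [Ne, ENNReal.ofReal_eq_zero, not_le]; positivity
        rw [hvt]
        calc ENNReal.ofReal σ = (ENNReal.ofReal ((2 * δ) ^ (k + 1)))⁻¹ *
              (ENNReal.ofReal ((2 * δ) ^ (k + 1)) * ENNReal.ofReal σ) := by
              rw [← mul_assoc, ENNReal.inv_mul_cancel hpos ENNReal.ofReal_ne_top, one_mul]
          _ = (ENNReal.ofReal ((2 * δ) ^ (k + 1)))⁻¹ * volume {z : Fin (k + 1 + 1) → ℝ |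
                z 0 ∈ Icc (0 : ℝ) σ ∧ ‖Fin.tail z - (a v + z 0 • v)‖ ≤ δ} := by
              rw [volume_slab hδp.le]
          _ ≤ _ := by
              gcongr
              rw [Set.inter_comm]
              exact hslab
      have hG1 : 1 ≤ volume G := by
        have h1 : volume (closedBall (0 : Fin (k + 1) → ℝ) 1) = ENNReal.ofReal (2 ^ (k + 1)) := by
          rw [Real.volume_pi_closedBall _ zero_le_one, Fintype.card_fin, mul_one]
        have h2 : volume (closedBall (0 : Fin (k + 1) → ℝ) 1) ≤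
            volume (closedBall (0 : Fin (k + 1) → ℝ) 1 \ G) + volume G := by
          refine (measure_mono ?_).trans (measure_union_le _ _)
          intro v hv
          by_cases hvG : v ∈ G
          · exact Or.inr hvG
          · exact Or.inl ⟨hv, hvG⟩
        have h3 : volume (closedBall (0 : Fin (k + 1) → ℝ) 1 \ G) ≤ 1 := by
          refine hGv.trans (le_of_eq ?_)
          rw [div_self (by positivity), ENNReal.ofReal_one]
        have h4 : (2 : ℝ≥0∞) ≤ volume (closedBall (0 : Fin (k + 1) → ℝ) 1) := by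
          rw [h1]
          have h5 : (2 : ℝ) ≤ 2 ^ (k + 1) := by
            rw [pow_succ]
            have : (1 : ℝ) ≤ 2 ^ k := one_le_pow₀ (by norm_num)
            linarith
          calc (2 : ℝ≥0∞) = ENNReal.ofReal 2 := by simp
            _ ≤ _ := ENNReal.ofReal_le_ofReal h5
        have h5 : (1 : ℝ≥0∞) + 1 ≤ 1 + volume G := by
          calc (1 : ℝ≥0∞) + 1 = 2 := by norm_num
            _ ≤ _ := h4
            _ ≤ _ := h2
            _ ≤ _ := by gcongr
        exact (ENNReal.add_le_add_iff_left ENNReal.one_ne_top).1 h5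
      rw [hleft]
      calc ENNReal.ofReal C * volume U ≤ ENNReal.ofReal |C| * ENNReal.ofReal ε := by
            gcongr
            exact le_abs_self C
        _ = ENNReal.ofReal (|C| * ε) := by rw [ENNReal.ofReal_mul (abs_nonneg C)]
        _ < ENNReal.ofReal (σ ^ p) := by
            rw [ENNReal.ofReal_lt_ofReal_iff (by positivity), hε]
            have h1 : 0 < σ ^ p := by positivity
            have h2 : 0 ≤ |C| := abs_nonneg C
            rw [← mul_div_assoc, div_lt_iff₀ (by positivity)]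
            nlinarith
        _ = ENNReal.ofReal σ ^ p := by
            rw [ENNReal.ofReal_rpow_of_pos hσ0]
        _ ≤ ENNReal.ofReal σ ^ p * volume G := le_mul_of_one_le_right' hG1
        _ = ∫⁻ _v in G, ENNReal.ofReal σ ^ p := by rw [setLIntegral_const]
        _ ≤ ∫⁻ v in G, avg δ a (U.indicator (fun _ => (1 : ℝ))) v ^ p := by
            refine setLIntegral_mono' hGc.measurableSet fun v hv => ?_
            exact ENNReal.rpow_le_rpow (hav v hv) hp.le
        _ ≤ _ := lintegral_mono_set hGs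

end Pool.Agent.Results.MP_5168f5_an.LipschitzThreshold
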