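import Pool.Agent.W770.SA.TubeF

set_option autoImplicit false

/-!
# MP_5168f5: the Kakeya maximal estimates for semialgebraic functions, without loss

A set is *basic open of degree at most `D`* if it is given by finitely many strict polynomial
inequalities `P i > 0` whose degrees add up to at most `D`; a set has *complexity at most `D`* if it
is a union of at most `D` such sets.  A function is considered semialgebraic of complexity at most
`D` here if every superlevel set `{|f| > s}`, `s > 0`, has complexity at most `D`.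

For these functions the Kakeya maximal estimates hold with a constant that is polynomial in the
complexity `D`:

* at the critical exponent `n`, for indicator functions, in the weak form, with **no loss in `δ`**
  (even for segments in place of tubes, that is, for `δ = 0`);
* for every exponent `p > n` in the strong form, with no loss in `δ` (again also for segments);
* for `p = n` in the strong form with a logarithmic loss.

The supremum in the maximal functions is over all tubes or segments of the given direction.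
-/

open MeasureTheory Set Filter Topology ENNReal NNReal Metric

namespace Pool.Agent.Results.MP_5168f5_an.SemialgebraicFunctions

/-- `S` is given by finitely many inequalities `P i > 0`, of degrees adding up to at most `D`. -/
def BasicOpen {n : ℕ} (D : ℕ) (S : Set (EuclideanSpace ℝ (Fin n))) : Prop :=
  ∃ (m : ℕ) (P : Fin m → MvPolynomial (Fin n) ℝ), ∑ i, (P i).totalDegree ≤ D ∧
    S = {x | ∀ i, 0 < MvPolynomial.eval (fun l => x l) (P i)}

/-- `A` is the union of `D` (possibly empty) basic open sets of degree at most `D`. -/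
def ComplexityLE {n : ℕ} (D : ℕ) (A : Set (EuclideanSpace ℝ (Fin n))) : Prop :=
  ∃ S : Fin D → Set (EuclideanSpace ℝ (Fin n)), (∀ i, BasicOpen D (S i)) ∧ A = ⋃ i, S i

/-- The superlevel sets of `|f|` have complexity at most `D`. -/
def SemialgLE {n : ℕ} (D : ℕ) (f : EuclideanSpace ℝ (Fin n) → ℝ) : Prop :=
  ∀ s : ℝ, 0 < s → ComplexityLE D {y | s < |f y|}

/-- The superlevel sets of `|f|` have complexity at most `D`, up to null sets. -/
def SemialgAE {n : ℕ} (D : ℕ) (f : EuclideanSpace ℝ (Fin n) → ℝ) : Prop :=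
  ∀ s : ℝ, 0 < s → ∃ A : Set (EuclideanSpace ℝ (Fin n)), ComplexityLE D A ∧
    {y | s < |f y|} =ᵐ[volume] A

/-- The closed tube of length `1` and radius `δ` with centre `b` and axis direction `e`. -/
def tube {n : ℕ} (δ : ℝ) (e b : EuclideanSpace ℝ (Fin n)) : Set (EuclideanSpace ℝ (Fin n)) :=
  {y | |inner ℝ (y - b) e| ≤ 1 / 2 ∧ ‖(y - b) - (inner ℝ (y - b) e : ℝ) • e‖ ≤ δ}

/-- The Kakeya maximal function. -/
noncomputable def kakeyaMax {n : ℕ} (δ : ℝ) (f : EuclideanSpace ℝ (Fin n) → ℝ)
    (e : EuclideanSpace ℝ (Fin n)) : ℝ≥0∞ :=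
  ⨆ a : EuclideanSpace ℝ (Fin n), (volume (tube δ e a))⁻¹ * ∫⁻ y in tube δ e a, ‖f y‖ₑ

/-- The maximal function of width zero: the supremum of the integrals of `|f|` over the unit
segments `{z + s e : 0 ≤ s ≤ 1}`. -/
noncomputable def segmentMax {n : ℕ} (f : EuclideanSpace ℝ (Fin n) → ℝ)
    (e : EuclideanSpace ℝ (Fin n)) : ℝ≥0∞ :=
  ⨆ z : EuclideanSpace ℝ (Fin n), ∫⁻ s in Icc (0:ℝ) 1, ‖f (z + s • e)‖ₑ

/-- The largest length of the part in `A` of a unit segment `{z + s e : 0 ≤ s ≤ 1}`. -/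
noncomputable def segmentLength {n : ℕ} (A : Set (EuclideanSpace ℝ (Fin n)))
    (e : EuclideanSpace ℝ (Fin n)) : ℝ≥0∞ :=
  ⨆ z : EuclideanSpace ℝ (Fin n), volume {s : ℝ | s ∈ Icc 0 1 ∧ z + s • e ∈ A}

/-- The surface measure of the unit sphere. -/
noncomputable def surf (n : ℕ) : Measure (sphere (0 : EuclideanSpace ℝ (Fin n)) 1) :=
  (volume : Measure (EuclideanSpace ℝ (Fin n))).toSphere

/-- **Kakeya maximal estimates for semialgebraic functions.**  For every `n ≥ 2` there is an
exponent `c` such that: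

1. (weak type at the critical exponent, segments, no loss)  for sets `A` of complexity `≤ D`, the
  measure of the set of directions in which some unit segment meets `A` in length `> λ` is at most
  `C D ^ c λ ^ (-n) |A|`;
2. (exponents `p > n`, no loss)  for functions `f` of complexity `≤ D` the maximal function of
  width zero and the Kakeya maximal functions of every width `δ` are bounded by
  `∫ (f^*)^p ≤ C D ^ c ∫ |f|^p`, with `C` depending on `n` and `p` only;
3. (the critical exponent, logarithmic loss)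
  `∫ (f^*_δ)^n ≤ C D ^ c (1 + log (1/δ))^n ∫ |f|^n`. -/
theorem result (n : ℕ) (hn : 2 ≤ n) : ∃ c : ℕ,
    (∃ C : ℝ, 0 < C ∧ ∀ (D : ℕ) (A : Set (EuclideanSpace ℝ (Fin n))) (lam : ℝ), 1 ≤ D →
      ComplexityLE D A → 0 < lam →
      surf n {e | ENNReal.ofReal lam < segmentLength A (e : EuclideanSpace ℝ (Fin n))} ≤
        ENNReal.ofReal (C * (D:ℝ) ^ c * (1 / lam) ^ n) * volume A) ∧
    (∀ p : ℝ, (n:ℝ) < p → ∃ C : ℝ, 0 < C ∧ ∀ (D : ℕ) (f : EuclideanSpace ℝ (Fin n) → ℝ), 1 ≤ D →
      SemialgLE D f →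
      ∫⁻ e, segmentMax f (e : EuclideanSpace ℝ (Fin n)) ^ p ∂(surf n) ≤
        ENNReal.ofReal (C * (D:ℝ) ^ c) * ∫⁻ y, ‖f y‖ₑ ^ p ∧
      ∀ δ : ℝ, 0 < δ →
        ∫⁻ e, kakeyaMax δ f (e : EuclideanSpace ℝ (Fin n)) ^ p ∂(surf n) ≤
          ENNReal.ofReal (C * (D:ℝ) ^ c) * ∫⁻ y, ‖f y‖ₑ ^ p) ∧
    (∃ C : ℝ, 0 < C ∧ ∀ (D : ℕ) (δ : ℝ) (f : EuclideanSpace ℝ (Fin n) → ℝ), 1 ≤ D → 0 < δ →
      δ < 1 → AEMeasurable f volume → SemialgAE D f →
      ∫⁻ e, kakeyaMax δ f (e : EuclideanSpace ℝ (Fin n)) ^ n ∂(surf n) ≤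
        ENNReal.ofReal (C * (D:ℝ) ^ c * (1 + Real.log (1 / δ)) ^ n) * ∫⁻ y, ‖f y‖ₑ ^ n) := by
  have hn1 : 1 ≤ n := by omega
  refine ⟨Pool.Agent.W770.SA.exp1 n, ?_, ?_, ?_⟩
  · exact ⟨Pool.Agent.W770.SA.cst1 n, Pool.Agent.W770.SA.cst1_pos hn1,
      fun D A lam hD hA hlam => Pool.Agent.W770.SA.weak hn1 hD hA hlam⟩
  · intro p hp
    exact Pool.Agent.W770.SA.strongP' hn1 hp
  · exact Pool.Agent.W770.SA.crit n hn

end Pool.Agent.Results.MP_5168f5_an.SemialgebraicFunctions
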