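import Pool.Agent.W767.Sd.Main

set_option autoImplicit false

/-!
# MP_5168f5: the full Kakeya maximal function on functions that are solid in n - 2 variables

A function `f` on `ℝ^n` is called solid here if it is even and nonincreasing in the absolute value
of each of the first `n - 2` coordinates (the set `{|f| > s}` contains, with a point, every point
obtained by shrinking these coordinates), with no condition at all on the dependence on the last
two coordinates.  The supremum in the maximal function is over ALL tubes of dimensions `1 × δ`.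
On these functions the estimate of the Kakeya maximal conjecture holds at the critical exponent
`n`, with a logarithmic loss in `δ`.
-/

open MeasureTheory Set Filter Topology ENNReal NNReal Metric

namespace Pool.Agent.Results.MP_5168f5_an.SolidFunctions

/-- The closed tube of length `1` and radius `δ` with centre `b` and axis direction `e`. -/
def tube {n : ℕ} (δ : ℝ) (e b : EuclideanSpace ℝ (Fin n)) : Set (EuclideanSpace ℝ (Fin n)) :=
  {y | |inner ℝ (y - b) e| ≤ 1 / 2 ∧ ‖(y - b) - (inner ℝ (y - b) e : ℝ) • e‖ ≤ δ}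

/-- The Kakeya maximal function. -/
noncomputable def kakeyaMax {n : ℕ} (δ : ℝ) (f : EuclideanSpace ℝ (Fin n) → ℝ)
    (e : EuclideanSpace ℝ (Fin n)) : ℝ≥0∞ :=
  ⨆ a : EuclideanSpace ℝ (Fin n), (volume (tube δ e a))⁻¹ * ∫⁻ y in tube δ e a, ‖f y‖ₑ

/-- `|f|` does not decrease if each of the first `n - 2` coordinates is replaced by one of smaller
or equal absolute value and the last two coordinates are kept. -/
def Solid {n : ℕ} (f : EuclideanSpace ℝ (Fin n) → ℝ) : Prop :=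
  ∀ x y : EuclideanSpace ℝ (Fin n), (∀ i : Fin n, i.val + 2 < n → |y i| ≤ |x i|) →
    (∀ i : Fin n, n ≤ i.val + 2 → y i = x i) → |f x| ≤ |f y|

open Pool.Agent.W767.Sd in
theorem main (m : ℕ) (hm : 2 ≤ m) : ∃ C : ℝ, 0 < C ∧
    ∀ (δ : ℝ) (f : EuclideanSpace ℝ (Fin (m + 1)) → ℝ), 0 < δ → δ < 1 → Measurable f →
      Solid f →
      ∫⁻ e : sphere (0 : EuclideanSpace ℝ (Fin (m + 1))) 1, kakeyaMax δ f e ^ (m + 1)
          ∂(volume : Measure (EuclideanSpace ℝ (Fin (m + 1)))).toSphere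
        ≤ ENNReal.ofReal (C * (1 + Real.log (1 / δ)) ^ ((m + 1) ^ 2)) *
          ∫⁻ y, ‖f y‖ₑ ^ (m + 1) := by
  obtain ⟨C, hC, hmain⟩ := solid_all m (by omega)
  obtain ⟨c, hc, hvol⟩ := Pool.Agent.H742R2.Kk.volume_tube m
  refine ⟨(c⁻¹) ^ (m + 1) * ((m:ℝ) + 1) * C, by positivity, ?_⟩
  intro δ f hδ hδ1 hf hS
  have hlog : 0 ≤ Real.log (1 / δ) := Real.log_nonneg (by rw [le_div_iff₀ hδ]; linarith)
  have hSE : SolidE (fun y : EuclideanSpace ℝ (Fin (m + 1)) => ‖f y‖ₑ) := by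
    intro x y h1 h2
    have h := hS x y h1 h2
    simp only [← ofReal_norm, Real.norm_eq_abs]
    exact ENNReal.ofReal_le_ofReal h
  obtain ⟨M, hMm, hMle, hMint⟩ := hmain δ hδ hδ1.le (fun y => ‖f y‖ₑ) hf.enorm hSE
  have hpt : ∀ e : sphere (0 : EuclideanSpace ℝ (Fin (m + 1))) 1,
      kakeyaMax δ f e ^ (m + 1) ≤ ENNReal.ofReal ((c⁻¹) ^ (m + 1)) * M e := by
    intro e
    have he : ‖(e : EuclideanSpace ℝ (Fin (m + 1)))‖ = 1 := by simp
    unfold kakeyaMax
    rw [ENNReal.iSup_pow]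
    apply iSup_le
    intro a
    have h1 : (volume (tube δ (e : EuclideanSpace ℝ (Fin (m + 1))) a))⁻¹ ≤
        ENNReal.ofReal c⁻¹ * (ENNReal.ofReal δ ^ m)⁻¹ := by
      have h2 := hvol δ e a hδ he
      calc (volume (tube δ (e : EuclideanSpace ℝ (Fin (m + 1))) a))⁻¹
          ≤ (ENNReal.ofReal (c * δ ^ m))⁻¹ := ENNReal.inv_le_inv.2 h2
        _ = ENNReal.ofReal c⁻¹ * (ENNReal.ofReal δ ^ m)⁻¹ := by
            rw [ENNReal.ofReal_mul hc.le, ENNReal.mul_inv (Or.inr ENNReal.ofReal_ne_top)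
              (Or.inl ENNReal.ofReal_ne_top), ENNReal.ofReal_inv_of_pos hc,
              ENNReal.ofReal_pow hδ.le]
    have h3 : ∫⁻ y in tube δ (e : EuclideanSpace ℝ (Fin (m + 1))) a, ‖f y‖ₑ ≤
        ∫⁻ y in cyl δ 1 (e : EuclideanSpace ℝ (Fin (m + 1))) a, ‖f y‖ₑ := by
      apply lintegral_mono_set
      rintro y ⟨hy1, hy2⟩
      exact ⟨by linarith, hy2⟩
    calc ((volume (tube δ (e : EuclideanSpace ℝ (Fin (m + 1))) a))⁻¹ *
          ∫⁻ y in tube δ (e : EuclideanSpace ℝ (Fin (m + 1))) a, ‖f y‖ₑ) ^ (m + 1)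
        ≤ (ENNReal.ofReal c⁻¹ * ((ENNReal.ofReal δ ^ m)⁻¹ *
          ∫⁻ y in cyl δ 1 (e : EuclideanSpace ℝ (Fin (m + 1))) a, ‖f y‖ₑ)) ^ (m + 1) := by
          rw [← mul_assoc]
          gcongr
      _ = ENNReal.ofReal c⁻¹ ^ (m + 1) * ((ENNReal.ofReal δ ^ m)⁻¹ *
          ∫⁻ y in cyl δ 1 (e : EuclideanSpace ℝ (Fin (m + 1))) a, ‖f y‖ₑ) ^ (m + 1) :=
          mul_pow _ _ _
      _ ≤ _ := by
          rw [ENNReal.ofReal_pow (by positivity)]
          gcongr
          exact hMle e a he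
  calc ∫⁻ e : sphere (0 : EuclideanSpace ℝ (Fin (m + 1))) 1, kakeyaMax δ f e ^ (m + 1)
          ∂(volume : Measure (EuclideanSpace ℝ (Fin (m + 1)))).toSphere
      ≤ ∫⁻ e : sphere (0 : EuclideanSpace ℝ (Fin (m + 1))) 1,
          ENNReal.ofReal ((c⁻¹) ^ (m + 1)) * M e
          ∂(volume : Measure (EuclideanSpace ℝ (Fin (m + 1)))).toSphere := lintegral_mono hpt
    _ = ENNReal.ofReal ((c⁻¹) ^ (m + 1)) *
          ∫⁻ e : sphere (0 : EuclideanSpace ℝ (Fin (m + 1))) 1, M e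
          ∂(volume : Measure (EuclideanSpace ℝ (Fin (m + 1)))).toSphere :=
        lintegral_const_mul' _ _ ENNReal.ofReal_ne_top
    _ ≤ ENNReal.ofReal ((c⁻¹) ^ (m + 1)) * (((m:ℝ≥0∞) + 1) *
          ∫⁻ x in closedBall (0 : EuclideanSpace ℝ (Fin (m + 1))) 1, M (‖x‖⁻¹ • x)) := by
        gcongr
        exact Pool.Agent.H742R2.Kk.sphere_le_ball m hMm
    _ ≤ ENNReal.ofReal ((c⁻¹) ^ (m + 1)) * (ENNReal.ofReal ((m:ℝ) + 1) *
          (ENNReal.ofReal (C * (1 + Real.log (1 / δ)) ^ ((m + 1) ^ 2)) *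
            ∫⁻ y, ‖f y‖ₑ ^ (m + 1))) := by
        have e5 : ((m:ℝ≥0∞) + 1) = ENNReal.ofReal ((m:ℝ) + 1) := by
          rw [ENNReal.ofReal_add (by positivity) (by norm_num)]; simp
        rw [e5]
        gcongr
    _ = _ := by
        rw [← mul_assoc, ← mul_assoc, ← ENNReal.ofReal_mul (by positivity),
          ← ENNReal.ofReal_mul (by positivity)]
        congr 2
        ring

/-- **The Kakeya maximal estimate on functions that are solid in `n - 2` variables**, in all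
dimensions `n ≥ 3`, at the critical exponent `n`, with a logarithmic loss. -/
theorem result (n : ℕ) (hn : 3 ≤ n) : ∃ C : ℝ, 0 < C ∧
    ∀ (δ : ℝ) (f : EuclideanSpace ℝ (Fin n) → ℝ), 0 < δ → δ < 1 → Measurable f → Solid f →
      ∫⁻ e : sphere (0 : EuclideanSpace ℝ (Fin n)) 1, kakeyaMax δ f e ^ n
          ∂(volume : Measure (EuclideanSpace ℝ (Fin n))).toSphere
        ≤ ENNReal.ofReal (C * (1 + Real.log (1 / δ)) ^ (n ^ 2)) * ∫⁻ y, ‖f y‖ₑ ^ n := by
  obtain ⟨m, rfl⟩ : ∃ m, n = m + 1 := ⟨n - 1, by omega⟩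
  exact main m (by omega)

end Pool.Agent.Results.MP_5168f5_an.SolidFunctions
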