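import Pool.Agent.W767.Kc.Asm2

set_option autoImplicit false

/-!
# MP_5168f5: the Kakeya maximal estimate for the tubes that meet a curve of finite order

Let `γ : ℝ → ℝ^n` be a continuous curve such that, for every direction `ν ≠ 0`, almost every
hyperplane orthogonal to `ν` meets the curve at most `N` times (parametrised arcs of real
algebraic curves, graphs of polynomials, convex curves, polygons, ... ).  No smoothness, no
curvature and no boundedness is assumed; the curve need not lie in a hyperplane.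

`curveMax δ γ f e` is the Kakeya maximal function `f^*_δ (e)` in which the supremum is restricted
to the tubes `T_e^δ(a)` whose axis line passes within `δ` of the curve.  There is no restriction
on how the tube depends on `e`: for each direction one may choose any such tube.  For `n ≥ 3` this
maximal function satisfies the estimate of the Kakeya maximal conjecture, at the critical exponent
`n`, with a logarithmic loss in `δ`, uniformly over all curves of order `N`.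
-/

open MeasureTheory Set Filter Topology ENNReal NNReal Metric

namespace Pool.Agent.Results.MP_5168f5_an.TubesMeetingCurve

/-- The closed tube of length `1` and radius `δ` with centre `b` and axis direction `e`. -/
def tube {n : ℕ} (δ : ℝ) (e b : EuclideanSpace ℝ (Fin n)) : Set (EuclideanSpace ℝ (Fin n)) :=
  {y | |inner ℝ (y - b) e| ≤ 1 / 2 ∧ ‖(y - b) - (inner ℝ (y - b) e : ℝ) • e‖ ≤ δ}

/-- The curve `γ` is of order at most `N`: for every direction `ν ≠ 0`, almost every hyperplane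
orthogonal to `ν` meets the curve at most `N` times. -/
def OrderLE {n : ℕ} (N : ℕ) (γ : ℝ → EuclideanSpace ℝ (Fin n)) : Prop :=
  ∀ ν : EuclideanSpace ℝ (Fin n), ν ≠ 0 → ∀ᵐ c : ℝ, {u : ℝ | inner ℝ ν (γ u) = c}.encard ≤ N

/-- Supremum of the averages of `|f|` over the `δ`-tubes with direction `e` whose axis line
(through the centre `a`) passes at distance at most `δ` from a point `γ t` of the curve. -/
noncomputable def curveMax {n : ℕ} (δ : ℝ) (γ : ℝ → EuclideanSpace ℝ (Fin n))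
    (f : EuclideanSpace ℝ (Fin n) → ℝ) (e : EuclideanSpace ℝ (Fin n)) : ℝ≥0∞ :=
  ⨆ (a : EuclideanSpace ℝ (Fin n)) (t : ℝ)
    (_ : ‖(a - γ t) - (inner ℝ (a - γ t) e : ℝ) • e‖ ≤ δ),
      (volume (tube δ e a))⁻¹ * ∫⁻ y in tube δ e a, ‖f y‖ₑ

open Pool.Agent.W767.Kc in
theorem log_bound (d : ℕ) : ∃ c : ℝ, 0 < c ∧ ∀ (N : ℕ) (δ : ℝ), 0 < δ → δ < 1 →
    ∃ J' J0 : ℕ, 1 + ((d:ℝ) + 1) * N ≤ 2 ^ J' ∧ 1 ≤ 2 ^ J0 * δ ∧
      ((J0:ℝ) + 1) ^ (d + 1) * ((J':ℝ) + J0 + 1) ^ 2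
        ≤ c * (1 + Real.log (N + 1)) ^ 2 * (1 + Real.log (1 / δ)) ^ (d + 3) := by
  set c1 : ℝ := (3/2) * Real.log (d + 1) + 5 with hc1
  have hlogd : 0 ≤ Real.log ((d:ℝ) + 1) := Real.log_nonneg (by
    have : (0:ℝ) ≤ d := by positivity
    linarith)
  refine ⟨2 ^ (d + 1) * c1 ^ 2, by positivity, ?_⟩
  intro N δ hδ hδ1
  have hlog2 : 2 / 3 < Real.log 2 := by
    have := Real.log_two_gt_d9
    linarith
  have hlogb : ∀ x : ℝ, 1 ≤ x → Real.logb 2 x ≤ (3/2) * Real.log x := by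
    intro x hx
    have h1 : 0 ≤ Real.log x := Real.log_nonneg hx
    rw [Real.logb, div_le_iff₀ (by linarith)]
    nlinarith
  have hceil : ∀ x : ℝ, 1 ≤ x → x ≤ 2 ^ ⌈Real.logb 2 x⌉₊ := by
    intro x hx
    have h1 : Real.logb 2 x ≤ ⌈Real.logb 2 x⌉₊ := Nat.le_ceil _
    rw [Real.logb_le_iff_le_rpow (by norm_num) (by linarith), Real.rpow_natCast] at h1
    exact h1
  have hceil2 : ∀ x : ℝ, 1 ≤ x → (⌈Real.logb 2 x⌉₊ : ℝ) ≤ (3/2) * Real.log x + 1 := by
    intro x hx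
    have h0 : 0 ≤ Real.logb 2 x := Real.logb_nonneg (by norm_num) hx
    have h1 := (Nat.ceil_lt_add_one h0).le
    have h2 := hlogb x hx
    linarith
  have hx1 : (1:ℝ) ≤ 1 + ((d:ℝ) + 1) * N := by
    have : 0 ≤ ((d:ℝ) + 1) * N := by positivity
    linarith
  have hx2 : (1:ℝ) ≤ 1 / δ := by
    rw [le_div_iff₀ hδ]; linarith
  refine ⟨⌈Real.logb 2 (1 + ((d:ℝ) + 1) * N)⌉₊, ⌈Real.logb 2 (1 / δ)⌉₊, hceil _ hx1, ?_, ?_⟩
  · have h1 := hceil _ hx2
    rw [div_le_iff₀ hδ] at h1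
    exact h1
  · set L : ℝ := 1 + Real.log (1 / δ) with hL
    set P : ℝ := 1 + Real.log ((N:ℝ) + 1) with hP
    have hlogδ : 0 ≤ Real.log (1 / δ) := Real.log_nonneg hx2
    have hlogN : 0 ≤ Real.log ((N:ℝ) + 1) := Real.log_nonneg (by
      have : (0:ℝ) ≤ N := by positivity
      linarith)
    have hL1 : 1 ≤ L := by linarith
    have hP1 : 1 ≤ P := by linarith
    have hJ0 := hceil2 _ hx2
    have hJ' := hceil2 _ hx1
    have h3 : Real.log (1 + ((d:ℝ) + 1) * N) ≤ Real.log ((d:ℝ) + 1) + Real.log ((N:ℝ) + 1) := by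
      rw [← Real.log_mul (by positivity) (by positivity)]
      apply Real.log_le_log (by linarith)
      have : (0:ℝ) ≤ d := by positivity
      nlinarith
    have hA : (⌈Real.logb 2 (1 / δ)⌉₊ : ℝ) + 1 ≤ 2 * L := by
      rw [hL]; linarith
    have hB : (⌈Real.logb 2 (1 + ((d:ℝ) + 1) * N)⌉₊ : ℝ) + ⌈Real.logb 2 (1 / δ)⌉₊ + 1
        ≤ c1 * P * L := by
      have hPL : 1 ≤ P * L := by nlinarith
      have h4 : (⌈Real.logb 2 (1 + ((d:ℝ) + 1) * N)⌉₊ : ℝ) + ⌈Real.logb 2 (1 / δ)⌉₊ + 1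
          ≤ (3/2) * Real.log ((d:ℝ) + 1) + (3/2) * (P - 1) + 1 + 2 * L := by
        rw [hP]
        linarith
      have h5 : P ≤ P * L := by nlinarith
      have h6 : L ≤ P * L := by nlinarith
      have h7 : Real.log ((d:ℝ) + 1) ≤ Real.log ((d:ℝ) + 1) * (P * L) := by nlinarith
      rw [hc1]
      nlinarith
    calc ((⌈Real.logb 2 (1 / δ)⌉₊ : ℝ) + 1) ^ (d + 1) *
          ((⌈Real.logb 2 (1 + ((d:ℝ) + 1) * N)⌉₊ : ℝ) + ⌈Real.logb 2 (1 / δ)⌉₊ + 1) ^ 2
        ≤ (2 * L) ^ (d + 1) * (c1 * P * L) ^ 2 := by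
          gcongr
      _ = 2 ^ (d + 1) * c1 ^ 2 * P ^ 2 * L ^ (d + 3) := by
          rw [mul_pow, mul_pow, mul_pow, show d + 3 = (d + 1) + 2 from rfl, pow_add L (d + 1) 2]
          ring

open Pool.Agent.W767.Kc in
theorem main (d : ℕ) (hd : 2 ≤ d) : ∃ C : ℝ, 0 < C ∧
    ∀ (N : ℕ) (γ : ℝ → EuclideanSpace ℝ (Fin (d + 1))) (δ : ℝ)
      (f : EuclideanSpace ℝ (Fin (d + 1)) → ℝ),
      Continuous γ → TubesMeetingCurve.OrderLE N γ → 0 < δ → δ < 1 → Measurable f →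
      ∫⁻ e : sphere (0 : EuclideanSpace ℝ (Fin (d + 1))) 1, curveMax δ γ f e ^ (d + 1)
          ∂(volume : Measure (EuclideanSpace ℝ (Fin (d + 1)))).toSphere
        ≤ ENNReal.ofReal (C * (N + 1) * (1 + Real.log (N + 1)) ^ 2
            * (1 + Real.log (1 / δ)) ^ (d + 3)) * ∫⁻ y, ‖f y‖ₑ ^ (d + 1) := by
  obtain ⟨A, hA, hmain⟩ := main_enn d hd
  obtain ⟨c, hc, hlog⟩ := log_bound d
  refine ⟨((d:ℝ) + 1) * (A.toReal + 1) * c, by positivity, ?_⟩
  intro N γ δ f hγ hN hδ hδ1 hf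
  obtain ⟨J', J0, hJ', hJ0, hJ⟩ := hlog N δ hδ hδ1
  obtain ⟨G, hGm, hGle, hGint⟩ := hmain N γ hγ hN δ hδ hδ1.le (fun y => ‖f y‖ₑ) hf.enorm J' J0
    hJ' hJ0
  have hpt : ∀ e : sphere (0 : EuclideanSpace ℝ (Fin (d + 1))) 1,
      curveMax δ γ f e ^ (d + 1) ≤ G e := by
    intro e
    have he : ‖(e : EuclideanSpace ℝ (Fin (d + 1)))‖ = 1 := by simp
    unfold curveMax
    rw [ENNReal.iSup_pow]
    apply iSup_le
    intro a
    rw [ENNReal.iSup_pow]
    apply iSup_le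
    intro t
    rw [ENNReal.iSup_pow_of_ne_zero (by omega)]
    apply iSup_le
    intro h
    exact hGle e a t he h
  have hR : A * ((((J0:ℝ≥0∞) + 1) ^ (d + 1) * ((J':ℝ≥0∞) + J0 + 1) ^ 2 * ((N:ℝ≥0∞) + 1)))
      ≤ ENNReal.ofReal ((A.toReal + 1) * (c * (1 + Real.log (N + 1)) ^ 2
        * (1 + Real.log (1 / δ)) ^ (d + 3) * (N + 1))) := by
    have e1 : ((J0:ℝ≥0∞) + 1) = ENNReal.ofReal ((J0:ℝ) + 1) := by
      rw [ENNReal.ofReal_add (by positivity) (by norm_num)]; simp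
    have e2 : ((J':ℝ≥0∞) + J0 + 1) = ENNReal.ofReal ((J':ℝ) + J0 + 1) := by
      rw [ENNReal.ofReal_add (by positivity) (by norm_num),
        ENNReal.ofReal_add (by positivity) (by positivity)]; simp
    have e3 : ((N:ℝ≥0∞) + 1) = ENNReal.ofReal ((N:ℝ) + 1) := by
      rw [ENNReal.ofReal_add (by positivity) (by norm_num)]; simp
    have e4 : A ≤ ENNReal.ofReal (A.toReal + 1) := by
      calc A = ENNReal.ofReal A.toReal := (ENNReal.ofReal_toReal hA).symm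
        _ ≤ _ := ENNReal.ofReal_le_ofReal (by linarith)
    rw [e1, e2, e3, ← ENNReal.ofReal_pow (by positivity), ← ENNReal.ofReal_pow (by positivity),
      ← ENNReal.ofReal_mul (by positivity), ← ENNReal.ofReal_mul (by positivity)]
    refine (mul_le_mul' e4 le_rfl).trans ?_
    rw [← ENNReal.ofReal_mul (by positivity)]
    apply ENNReal.ofReal_le_ofReal
    gcongr
  calc ∫⁻ e : sphere (0 : EuclideanSpace ℝ (Fin (d + 1))) 1, curveMax δ γ f e ^ (d + 1)
          ∂(volume : Measure (EuclideanSpace ℝ (Fin (d + 1)))).toSphere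
      ≤ ∫⁻ e : sphere (0 : EuclideanSpace ℝ (Fin (d + 1))) 1, G e
          ∂(volume : Measure (EuclideanSpace ℝ (Fin (d + 1)))).toSphere := lintegral_mono hpt
    _ ≤ ((d:ℝ≥0∞) + 1) * ∫⁻ x in closedBall (0 : EuclideanSpace ℝ (Fin (d + 1))) 1,
          G (‖x‖⁻¹ • x) := Pool.Agent.H742R2.Kk.sphere_le_ball d hGm
    _ ≤ ((d:ℝ≥0∞) + 1) * (A * ((((J0:ℝ≥0∞) + 1) ^ (d + 1) * ((J':ℝ≥0∞) + J0 + 1) ^ 2
          * ((N:ℝ≥0∞) + 1))) * ∫⁻ y, ‖f y‖ₑ ^ (d + 1)) := by
        gcongr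
    _ ≤ ENNReal.ofReal ((d:ℝ) + 1) * (ENNReal.ofReal ((A.toReal + 1) *
          (c * (1 + Real.log (N + 1)) ^ 2
        * (1 + Real.log (1 / δ)) ^ (d + 3) * (N + 1))) * ∫⁻ y, ‖f y‖ₑ ^ (d + 1)) := by
        have e5 : ((d:ℝ≥0∞) + 1) = ENNReal.ofReal ((d:ℝ) + 1) := by
          rw [ENNReal.ofReal_add (by positivity) (by norm_num)]; simp
        rw [e5]
        gcongr
    _ = _ := by
        rw [← mul_assoc, ← ENNReal.ofReal_mul (by positivity)]
        congr 2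
        ring

/-- **The Kakeya maximal estimate for the tubes meeting a curve of finite order**, in all
dimensions `n ≥ 3`, at the critical exponent `n`, with a logarithmic loss. -/
theorem result (n : ℕ) (hn : 3 ≤ n) : ∃ C : ℝ, 0 < C ∧
    ∀ (N : ℕ) (γ : ℝ → EuclideanSpace ℝ (Fin n)) (δ : ℝ) (f : EuclideanSpace ℝ (Fin n) → ℝ),
      Continuous γ → OrderLE N γ → 0 < δ → δ < 1 → AEMeasurable f volume →
      ∫⁻ e : sphere (0 : EuclideanSpace ℝ (Fin n)) 1, curveMax δ γ f e ^ n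
          ∂(volume : Measure (EuclideanSpace ℝ (Fin n))).toSphere
        ≤ ENNReal.ofReal (C * (N + 1) * (1 + Real.log (N + 1)) ^ 2
            * (1 + Real.log (1 / δ)) ^ (n + 2)) * ∫⁻ y, ‖f y‖ₑ ^ n := by
  obtain ⟨d, rfl⟩ : ∃ d, n = d + 1 := ⟨n - 1, by omega⟩
  obtain ⟨C, hC, hmain⟩ := main d (by omega)
  refine ⟨C, hC, ?_⟩
  intro N γ δ f hγ hN hδ hδ1 hf
  have h1 := hmain N γ δ (hf.mk f) hγ hN hδ hδ1 hf.measurable_mk
  have h2 : ∀ e, curveMax δ γ f e = curveMax δ γ (hf.mk f) e := by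
    intro e
    unfold curveMax
    congr 1
    ext a
    congr 1
    ext t
    congr 1
    ext h
    congr 1
    apply lintegral_congr_ae
    filter_upwards [ae_restrict_of_ae hf.ae_eq_mk] with y hy
    rw [hy]
  have h3 : ∫⁻ y, ‖f y‖ₑ ^ (d + 1) = ∫⁻ y, ‖hf.mk f y‖ₑ ^ (d + 1) := by
    apply lintegral_congr_ae
    filter_upwards [hf.ae_eq_mk] with y hy
    rw [hy]
  simp_rw [h2]
  rw [h3]
  exact h1

end Pool.Agent.Results.MP_5168f5_an.TubesMeetingCurve
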